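import Pool.Agent.Form3.Series

set_option autoImplicit false

namespace Pool.Agent.Results.MP_3384ed_al.FiniteForm

open scoped commutatorElement

/-- A class of groups; the groups live in `Type`, where every finite group has a copy. -/
abbrev GroupClass : Type 1 := ∀ (H : Type) [Group H], Prop

/-- A formation: a class of finite groups, closed under isomorphism and under quotients, such that
`H/N₁, H/N₂ ∈ F` implies `H/(N₁ ∩ N₂) ∈ F`. (The empty class is allowed.) -/
structure IsFormation (F : GroupClass) : Prop where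
  finite : ∀ (H : Type) [Group H], F H → Finite H
  iso : ∀ (H K : Type) [Group H] [Group K], Nonempty (H ≃* K) → F H → F K
  quotient : ∀ (H : Type) [Group H] (N : Subgroup H) [N.Normal], F H → F (H ⧸ N)
  inf : ∀ (H : Type) [Group H] [Finite H] (N₁ N₂ : Subgroup H) [N₁.Normal] [N₂.Normal],
    F (H ⧸ N₁) → F (H ⧸ N₂) → F (H ⧸ (N₁ ⊓ N₂))

/-- `form(G)`: the intersection of all formations containing `G`. -/
def form (G : Type) [Group G] : GroupClass :=
  fun H _ => ∀ F : GroupClass, IsFormation F → F G → F H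

/-- The set of all subformations of `form(G)`. -/
def subformations (G : Type) [Group G] : Set GroupClass :=
  {F | IsFormation F ∧ ∀ (H : Type) [Group H], F H → form G H}

/-- `A` is a normal subgroup of `B` and `B/A` is simple. -/
def SimpleStep {G : Type} [Group G] (B A : Subgroup G) : Prop :=
  A ≤ B ∧ ∃ _ : (A.subgroupOf B).Normal, IsSimpleGroup (B ⧸ A.subgroupOf B)

/-- `l` is a composition series of `G`, written from the top `G` down to the bottom `1`. -/
def IsCompositionSeries {G : Type} [Group G] (l : List (Subgroup G)) : Prop :=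
  l.head? = some ⊤ ∧ l.getLast? = some ⊥ ∧ l.IsChain SimpleStep

/-! ### `form(G)` is contained in the class of quotients of subdirect powers of `G` -/

/-- quotients of subdirect powers -/
def QR (G : Type) [Group G] : GroupClass := fun H _ =>
  ∃ n : ℕ, ∃ S : Subgroup (Fin n → G), (∀ (i : Fin n) (g : G), ∃ s ∈ S, s i = g) ∧
    ∃ f : S →* H, Function.Surjective f

lemma QR_of_family {G H S : Type} [Group G] [Group H] [Group S] {ι : Type} [Finite ι]
    (φ : ι → S →* G) (hφ : ∀ i, Function.Surjective (φ i))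
    (hinj : ∀ x : S, (∀ i, φ i x = 1) → x = 1) (f : S →* H) (hf : Function.Surjective f) :
    QR G H := by
  obtain ⟨n, ⟨e⟩⟩ := Finite.exists_equiv_fin ι
  let Φ : S →* (Fin n → G) := MonoidHom.pi (fun j => φ (e.symm j))
  have hΦ : Function.Injective Φ := by
    rw [injective_iff_map_eq_one]
    intro x hx
    apply hinj
    intro i
    have := congrFun hx (e i)
    simpa [Φ] using this
  let E : S ≃* Φ.range := MonoidHom.ofInjective hΦ
  refine ⟨n, Φ.range, ?_, f.comp E.symm.toMonoidHom, ?_⟩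
  · intro i g
    obtain ⟨s, hs⟩ := hφ (e.symm i) g
    exact ⟨Φ s, ⟨s, rfl⟩, hs⟩
  · intro h
    obtain ⟨s, rfl⟩ := hf h
    exact ⟨E s, by simp⟩

lemma QR_formation (G : Type) [Group G] [Finite G] : IsFormation (QR G) where
  finite := by
    rintro H _ ⟨n, S, _, f, hf⟩
    exact Finite.of_surjective f hf
  iso := by
    rintro H K _ _ ⟨e⟩ ⟨n, S, hS, f, hf⟩
    exact ⟨n, S, hS, e.toMonoidHom.comp f, e.surjective.comp hf⟩
  quotient := by
    rintro H _ N _ ⟨n, S, hS, f, hf⟩
    exact ⟨n, S, hS, (QuotientGroup.mk' N).comp f, (QuotientGroup.mk'_surjective N).comp hf⟩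
  inf := by
    rintro H _ _ N₁ N₂ _ _ ⟨n₁, S₁, hS₁, f₁, hf₁⟩ ⟨n₂, S₂, hS₂, f₂, hf₂⟩
    let r : H →* (H ⧸ N₁) × (H ⧸ N₂) := (QuotientGroup.mk' N₁).prod (QuotientGroup.mk' N₂)
    have hr : r.ker = N₁ ⊓ N₂ := by
      ext x
      simp only [r, MonoidHom.mem_ker, MonoidHom.prod_apply, Prod.mk_eq_one, Subgroup.mem_inf,
        QuotientGroup.mk'_apply, QuotientGroup.eq_one_iff]
    let F : S₁ × S₂ →* (H ⧸ N₁) × (H ⧸ N₂) := f₁.prodMap f₂
    let P : Subgroup (S₁ × S₂) := r.range.comap F
    let g : P →* r.range := (F.comp P.subtype).codRestrict r.range (fun x => x.2)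
    have hg : Function.Surjective g := by
      rintro ⟨⟨a, b⟩, hab⟩
      obtain ⟨s, rfl⟩ := hf₁ a
      obtain ⟨t, rfl⟩ := hf₂ b
      exact ⟨⟨(s, t), hab⟩, rfl⟩
    let e : r.range ≃* H ⧸ (N₁ ⊓ N₂) :=
      (QuotientGroup.quotientKerEquivRange r).symm.trans (QuotientGroup.quotientMulEquivOfEq hr)
    refine QR_of_family (ι := Fin n₁ ⊕ Fin n₂) (S := P)
      (fun i => match i with
        | Sum.inl i => ((Pi.evalMonoidHom (fun _ : Fin n₁ => G) i).comp S₁.subtype).comp
            ((MonoidHom.fst S₁ S₂).comp P.subtype)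
        | Sum.inr i => ((Pi.evalMonoidHom (fun _ : Fin n₂ => G) i).comp S₂.subtype).comp
            ((MonoidHom.snd S₁ S₂).comp P.subtype)) ?_ ?_ (e.toMonoidHom.comp g)
      (e.surjective.comp hg)
    · rintro (i | i) x
      · obtain ⟨s, hs, hsx⟩ := hS₁ i x
        obtain ⟨h, hh⟩ := QuotientGroup.mk_surjective (f₁ ⟨s, hs⟩)
        obtain ⟨t, ht⟩ := hf₂ (h : H ⧸ N₂)
        exact ⟨⟨(⟨s, hs⟩, t), ⟨h, Prod.ext hh ht.symm⟩⟩, hsx⟩
      · obtain ⟨s, hs, hsx⟩ := hS₂ i x
        obtain ⟨h, hh⟩ := QuotientGroup.mk_surjective (f₂ ⟨s, hs⟩)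
        obtain ⟨t, ht⟩ := hf₁ (h : H ⧸ N₁)
        exact ⟨⟨(t, ⟨s, hs⟩), ⟨h, Prod.ext ht.symm hh⟩⟩, hsx⟩
    · rintro ⟨⟨s, t⟩, hst⟩ hx
      apply Subtype.ext
      apply Prod.ext
      · apply Subtype.ext
        funext i
        exact hx (Sum.inl i)
      · apply Subtype.ext
        funext i
        exact hx (Sum.inr i)

lemma QR_self (G : Type) [Group G] : QR G G :=
  QR_of_family (ι := Unit) (fun _ => MonoidHom.id G) (fun _ => Function.surjective_id)
    (fun _ hx => hx ()) (MonoidHom.id G) Function.surjective_id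

lemma isSub {G : Type} [Group G] [Finite G] {F : GroupClass} (hF : F ∈ subformations G) :
    Form3.IsSub G F := by
  obtain ⟨hF, hle⟩ := hF
  refine ⟨fun H _ hH => hle H hH (QR G) (QR_formation G) (QR_self G), ?_, ?_⟩
  · intro H K _ _ f hf hH
    exact hF.iso _ _ ⟨QuotientGroup.quotientKerEquivOfSurjective f hf⟩ (hF.quotient H f.ker hH)
  · intro H _ N₁ N₂ _ _ h1 h2
    have i1 : Finite (H ⧸ N₁) := hF.finite _ h1
    have i2 : Finite (H ⧸ N₂) := hF.finite _ h2
    have hfin : Finite (H ⧸ (N₁ ⊓ N₂)) := by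
      let r : H →* (H ⧸ N₁) × (H ⧸ N₂) := (QuotientGroup.mk' N₁).prod (QuotientGroup.mk' N₂)
      have hr : r.ker = N₁ ⊓ N₂ := by
        ext x
        simp only [r, MonoidHom.mem_ker, MonoidHom.prod_apply, Prod.mk_eq_one, Subgroup.mem_inf,
          QuotientGroup.mk'_apply, QuotientGroup.eq_one_iff]
      exact Finite.of_equiv _ ((QuotientGroup.quotientKerEquivRange r).symm.trans
        (QuotientGroup.quotientMulEquivOfEq hr)).toEquiv
    have h3 : F ((H ⧸ (N₁ ⊓ N₂)) ⧸ N₁.map (QuotientGroup.mk' (N₁ ⊓ N₂))) :=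
      hF.iso _ _ ⟨(QuotientGroup.quotientQuotientEquivQuotient (N₁ ⊓ N₂) N₁ inf_le_left).symm⟩ h1
    have h4 : F ((H ⧸ (N₁ ⊓ N₂)) ⧸ N₂.map (QuotientGroup.mk' (N₁ ⊓ N₂))) :=
      hF.iso _ _ ⟨(QuotientGroup.quotientQuotientEquivQuotient (N₁ ⊓ N₂) N₂ inf_le_right).symm⟩ h2
    have h5 := hF.inf _ _ _ h3 h4
    have h6 : N₁.map (QuotientGroup.mk' (N₁ ⊓ N₂)) ⊓ N₂.map (QuotientGroup.mk' (N₁ ⊓ N₂)) = ⊥ := by
      rw [eq_bot_iff]
      rintro x ⟨⟨a, ha, rfl⟩, ⟨b, hb, hab⟩⟩
      rw [QuotientGroup.mk'_apply, QuotientGroup.mk'_apply, QuotientGroup.eq] at hab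
      rw [Subgroup.mem_bot, QuotientGroup.mk'_apply, QuotientGroup.eq_one_iff]
      refine ⟨ha, ?_⟩
      have := N₂.mul_mem hb hab.2
      simpa using this
    exact hF.iso _ _ ⟨(QuotientGroup.quotientMulEquivOfEq h6).trans QuotientGroup.quotientBot⟩ h5

/-! ### the composition series -/

lemma SimpleStep.ne {G : Type} [Group G] {B A : Subgroup G} (h : SimpleStep B A) : A ≠ B := by
  obtain ⟨_, hn, hs⟩ := h
  rintro rfl
  obtain ⟨x, y, hxy⟩ := hs.exists_pair_ne
  apply hxy
  obtain ⟨a, rfl⟩ := QuotientGroup.mk_surjective x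
  obtain ⟨b, rfl⟩ := QuotientGroup.mk_surjective y
  rw [QuotientGroup.eq, Subgroup.subgroupOf_self]
  exact Subgroup.mem_top _

lemma SimpleStep.max {G : Type} [Group G] {B A : Subgroup G} (h : SimpleStep B A)
    {N : Subgroup G} (h1 : A ≤ N) (h2 : N ≤ B) (h3 : (N.subgroupOf B).Normal) :
    N = A ∨ N = B := by
  obtain ⟨hle, hn, hs⟩ := h
  have h4 : ((N.subgroupOf B).map (QuotientGroup.mk' (A.subgroupOf B))).Normal :=
    Subgroup.Normal.map h3 _ (QuotientGroup.mk'_surjective _)
  have key : ∀ x : B, (x : G) ∈ N ↔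
      (x : B ⧸ A.subgroupOf B) ∈ (N.subgroupOf B).map (QuotientGroup.mk' (A.subgroupOf B)) := by
    intro x
    constructor
    · intro hx; exact ⟨x, hx, rfl⟩
    · rintro ⟨y, hy, hyx⟩
      rw [QuotientGroup.mk'_apply, QuotientGroup.eq] at hyx
      have h5 : ((y⁻¹ * x : B) : G) ∈ A := hyx
      have h6 : (y : G) ∈ N := hy
      have := N.mul_mem h6 (h1 h5)
      simpa using this
  rcases hs.eq_bot_or_eq_top_of_normal _ h4 with h5 | h5
  · left
    apply le_antisymm _ h1
    intro x hx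
    have h6 := (key ⟨x, h2 hx⟩).1 hx
    rw [h5, Subgroup.mem_bot, QuotientGroup.eq_one_iff] at h6
    exact h6
  · right
    apply le_antisymm h2
    intro x hx
    exact (key ⟨x, hx⟩).2 (by rw [h5]; exact Subgroup.mem_top _)

lemma simpleStep_of {G : Type} [Group G] {B A : Subgroup G} (hle : A ≤ B) (hne : A ≠ B)
    (hn : (A.subgroupOf B).Normal)
    (h : ∀ N : Subgroup G, A ≤ N → N ≤ B → (N.subgroupOf B).Normal → N = A ∨ N = B) :
    SimpleStep B A := by
  refine ⟨hle, hn, ?_⟩
  have hnt : Nontrivial (B ⧸ A.subgroupOf B) := by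
    obtain ⟨x, hx, hxA⟩ := SetLike.exists_of_lt (lt_of_le_of_ne hle hne)
    refine ⟨(⟨x, hx⟩ : B), 1, fun h => hxA ?_⟩
    rw [QuotientGroup.eq_one_iff] at h
    exact h
  refine { eq_bot_or_eq_top_of_normal := ?_ }
  intro H hH
  let N : Subgroup G := (H.comap (QuotientGroup.mk' (A.subgroupOf B))).map B.subtype
  have hNB : N ≤ B := by rintro _ ⟨x, _, rfl⟩; exact x.2
  have hN : ∀ x : B, (x : G) ∈ N ↔ (x : B ⧸ A.subgroupOf B) ∈ H := by
    intro x
    constructor
    · rintro ⟨y, hy, hyx⟩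
      have : y = x := Subtype.ext hyx
      rw [← this]; exact hy
    · intro hx; exact ⟨x, hx, rfl⟩
  have hAN : A ≤ N := by
    intro x hx
    rw [hN ⟨x, hle hx⟩]
    have : ((⟨x, hle hx⟩ : B) : B ⧸ A.subgroupOf B) = 1 := (QuotientGroup.eq_one_iff _).2 hx
    rw [this]; exact H.one_mem
  have hNn : (N.subgroupOf B).Normal := by
    have : N.subgroupOf B = H.comap (QuotientGroup.mk' (A.subgroupOf B)) := by
      ext x
      exact hN x
    rw [this]; infer_instance
  rcases h N hAN hNB hNn with h1 | h1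
  · left
    rw [eq_bot_iff]
    intro x hx
    obtain ⟨y, rfl⟩ := QuotientGroup.mk_surjective x
    rw [Subgroup.mem_bot, QuotientGroup.eq_one_iff]
    have h2 := (hN y).2 hx
    rw [h1] at h2
    exact h2
  · right
    rw [eq_top_iff]
    intro x _
    obtain ⟨y, rfl⟩ := QuotientGroup.mk_surjective x
    exact (hN y).1 (by rw [h1]; exact y.2)

section

open Form3

variable (K : Type) [Field K] [Finite K] [CharP K 2]

lemma normal_cases (hK : Nat.card K = 64) (B : Subgroup (GG K)) (hB : B.Normal) :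
    B = ⊥ ∨ B = G1 K ∨ B = G2 K ∨ B = ⊤ := by
  have hn : (B ⊓ G2 K).Normal := inferInstance
  have hle_case : B ⊓ G2 K ≤ G1 K → B = ⊥ ∨ B = G1 K := by
    intro hle
    have hB1 : B ≤ G1 K := by
      intro b hb
      apply cen K
      intro x hx
      apply hle
      refine ⟨?_, ?_⟩
      · rw [commutatorElement_def, mul_assoc, mul_assoc]
        refine B.mul_mem hb ?_
        rw [← mul_assoc]
        exact hB.conj_mem _ (B.inv_mem hb) x
      · rw [commutatorElement_def]
        exact (G2 K).mul_mem ((inferInstance : (G2 K).Normal).conj_mem x hx b)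
          ((G2 K).inv_mem hx)
    have h1 := Subgroup.card_dvd_of_le hB1
    rw [card_G1 K hK, Nat.dvd_prime Nat.prime_three] at h1
    rcases h1 with h1 | h1
    · exact Or.inl (Subgroup.eq_bot_of_card_eq _ h1)
    · exact Or.inr (Subgroup.eq_of_le_of_card_ge hB1 (by rw [h1, card_G1 K hK]))
  rcases nsub K hK (B ⊓ G2 K) hn inf_le_right with h | h | h
  · rcases hle_case (by rw [h]; exact bot_le) with h1 | h1
    · exact Or.inl h1
    · exact Or.inr (Or.inl h1)
  · rcases hle_case h.le with h1 | h1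
    · exact Or.inl h1
    · exact Or.inr (Or.inl h1)
  · have hle : G2 K ≤ B := inf_eq_right.1 h
    have e1 := Subgroup.relIndex_mul_index hle
    have e2 : (G2 K).index = 3 := card_quot K hK
    rw [e2] at e1
    have e3 : B.index ∣ 3 := ⟨_, by rw [mul_comm]; exact e1.symm⟩
    rw [Nat.dvd_prime Nat.prime_three] at e3
    rcases e3 with e3 | e3
    · rw [Subgroup.index_eq_one] at e3
      exact Or.inr (Or.inr (Or.inr e3))
    · rw [e3] at e1
      have e4 : (G2 K).relIndex B = 1 := by omega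
      rw [Subgroup.relIndex_eq_one] at e4
      exact Or.inr (Or.inr (Or.inl (le_antisymm e4 hle)))

lemma nsubG2 (hK : Nat.card K = 64) (A : Subgroup (GG K)) (hA : (A.subgroupOf (G2 K)).Normal)
    (hAB : A ≤ G2 K) : A = ⊥ ∨ A = G1 K ∨ A = G2 K := by
  have hn : (A.comap (SemidirectProduct.inl :
      Matrix.SpecialLinearGroup (Fin 3) K →* GG K)).Normal := by
    constructor
    intro a ha x
    rw [Subgroup.mem_comap] at ha ⊢
    rw [map_mul, map_mul, map_inv]
    have h1 : (⟨SemidirectProduct.inl a, ⟨a, rfl⟩⟩ : G2 K) ∈ A.subgroupOf (G2 K) := ha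
    exact hA.conj_mem _ h1 ⟨SemidirectProduct.inl x, ⟨x, rfl⟩⟩
  exact nsub' K hK A hn hAB

lemma G1_ne_bot (hK : Nat.card K = 64) : G1 K ≠ ⊥ := by
  intro h
  have := card_G1 K hK
  rw [h, Subgroup.card_bot] at this
  omega

lemma G1_ne_G2 : G1 K ≠ G2 K := by
  intro h
  apply nonab K
  have : Subsingleton (G2 K ⧸ (G1 K).subgroupOf (G2 K)) := by
    rw [h, Subgroup.subgroupOf_self]
    exact QuotientGroup.subsingleton_quotient_top
  intro a b
  exact Subsingleton.elim _ _

lemma G2_ne_top (hK : Nat.card K = 64) : G2 K ≠ ⊤ := by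
  intro h
  have e2 : (G2 K).index = 3 := card_quot K hK
  rw [h, Subgroup.index_top] at e2
  omega

lemma step_top (hK : Nat.card K = 64) (B : Subgroup (GG K)) : SimpleStep ⊤ B ↔ B = G2 K := by
  have nrm : ∀ N : Subgroup (GG K), (N.subgroupOf ⊤).Normal → N.Normal := by
    intro N hN
    constructor
    intro a ha x
    exact hN.conj_mem ⟨a, Subgroup.mem_top _⟩ ha ⟨x, Subgroup.mem_top _⟩
  constructor
  · intro h
    have hB : B.Normal := nrm B h.2.1
    have hG2 : ((G2 K).subgroupOf ⊤).Normal := inferInstance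
    rcases normal_cases K hK B hB with h1 | h1 | h1 | h1
    · subst h1
      rcases h.max bot_le le_top hG2 with h2 | h2
      · exact absurd (le_antisymm (h2 ▸ G1_le K) bot_le) (G1_ne_bot K hK)
      · exact absurd h2 (G2_ne_top K hK)
    · subst h1
      rcases h.max (G1_le K) le_top hG2 with h2 | h2
      · exact absurd h2.symm (G1_ne_G2 K)
      · exact absurd h2 (G2_ne_top K hK)
    · exact h1
    · exact absurd h1 h.ne
  · rintro rfl
    refine simpleStep_of le_top (G2_ne_top K hK) inferInstance ?_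
    intro N hN _ hn
    rcases normal_cases K hK N (nrm N hn) with h1 | h1 | h1 | h1
    · subst h1
      exact absurd (le_antisymm ((G1_le K).trans hN) bot_le) (G1_ne_bot K hK)
    · subst h1
      exact absurd (le_antisymm (G1_le K) hN) (G1_ne_G2 K)
    · exact Or.inl h1
    · exact Or.inr h1

lemma step_G2 (hK : Nat.card K = 64) (A : Subgroup (GG K)) : SimpleStep (G2 K) A ↔ A = G1 K := by
  have hG1 : ((G1 K).subgroupOf (G2 K)).Normal := inferInstance
  constructor
  · intro h
    rcases nsubG2 K hK A h.2.1 h.1 with h1 | h1 | h1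
    · subst h1
      rcases h.max bot_le (G1_le K) hG1 with h2 | h2
      · exact absurd h2 (G1_ne_bot K hK)
      · exact absurd h2 (G1_ne_G2 K)
    · exact h1
    · exact absurd h1 h.ne
  · rintro rfl
    refine simpleStep_of (G1_le K) (G1_ne_G2 K) hG1 ?_
    intro N hN hNB hn
    rcases nsubG2 K hK N hn hNB with h1 | h1 | h1
    · subst h1
      exact absurd (le_antisymm hN bot_le) (G1_ne_bot K hK)
    · exact Or.inl h1
    · exact Or.inr h1

lemma sub_G1 (hK : Nat.card K = 64) (C : Subgroup (GG K)) (hC : C ≤ G1 K) :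
    C = ⊥ ∨ C = G1 K := by
  have h1 := Subgroup.card_dvd_of_le hC
  rw [card_G1 K hK, Nat.dvd_prime Nat.prime_three] at h1
  rcases h1 with h1 | h1
  · exact Or.inl (Subgroup.eq_bot_of_card_eq _ h1)
  · exact Or.inr (Subgroup.eq_of_le_of_card_ge hC (by rw [h1, card_G1 K hK]))

lemma step_G1 (hK : Nat.card K = 64) (C : Subgroup (GG K)) : SimpleStep (G1 K) C ↔ C = ⊥ := by
  constructor
  · intro h
    rcases sub_G1 K hK C h.1 with h1 | h1
    · exact h1
    · exact absurd h1 h.ne
  · rintro rfl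
    refine simpleStep_of bot_le (G1_ne_bot K hK).symm ?_ ?_
    · rw [Subgroup.bot_subgroupOf]; infer_instance
    · intro N _ hN _
      exact sub_G1 K hK N hN

omit [Finite K] [CharP K 2] in
lemma step_bot {G : Type} [Group G] (D : Subgroup G) : ¬ SimpleStep ⊥ D := by
  intro h
  exact h.ne (le_antisymm h.1 bot_le)

lemma series_iff (hK : Nat.card K = 64) (l : List (Subgroup (GG K))) :
    IsCompositionSeries l ↔ l = [⊤, G2 K, G1 K, ⊥] := by
  have ne1 : (⊤ : Subgroup (GG K)) ≠ ⊥ := by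
    intro h
    exact G1_ne_bot K hK (le_antisymm (h ▸ le_top) bot_le)
  have ne2 : G2 K ≠ ⊥ := by
    intro h
    exact G1_ne_bot K hK (le_antisymm (h ▸ G1_le K) bot_le)
  constructor
  · rintro ⟨h1, h2, h3⟩
    rcases l with _ | ⟨a, l⟩
    · simp at h1
    obtain rfl : a = ⊤ := by simpa using h1
    rcases l with _ | ⟨b, l⟩
    · exact absurd (by simpa using h2) ne1
    rw [List.isChain_cons_cons] at h3
    obtain ⟨h4, h3⟩ := h3
    obtain rfl := (step_top K hK b).1 h4
    rcases l with _ | ⟨c, l⟩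
    · exact absurd (by simpa using h2) ne2
    rw [List.isChain_cons_cons] at h3
    obtain ⟨h5, h3⟩ := h3
    obtain rfl := (step_G2 K hK c).1 h5
    rcases l with _ | ⟨d, l⟩
    · exact absurd (by simpa using h2) (G1_ne_bot K hK)
    rw [List.isChain_cons_cons] at h3
    obtain ⟨h6, h3⟩ := h3
    obtain rfl := (step_G1 K hK d).1 h6
    rcases l with _ | ⟨e, l⟩
    · rfl
    rw [List.isChain_cons_cons] at h3
    exact absurd h3.1 (step_bot e)
  · rintro rfl
    refine ⟨rfl, rfl, ?_⟩
    simp only [List.isChain_cons_cons, List.isChain_singleton, and_true]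
    exact ⟨(step_top K hK _).2 rfl, (step_G2 K hK _).2 rfl, (step_G1 K hK _).2 rfl⟩

end

/-- There is a finite group `G` with exactly one composition series `G > G₂ > G₁ > 1`, where
`G₁ = Z(G)` has order 3, `G₂` is isomorphic to `SL₃(𝔽₆₄)`, `G₂/G₁` is (simple) non-abelian and
`G/G₂` has order 3, such that `form(G)` has only finitely many subformations. -/
theorem result :
    ∃ (G : Type) (_ : Group G) (_ : Finite G) (G₁ G₂ : Subgroup G),
      (∀ l : List (Subgroup G), IsCompositionSeries l ↔ l = [⊤, G₂, G₁, ⊥]) ∧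
      Nat.card G₁ = 3 ∧ G₁ = Subgroup.center G ∧
      Nonempty (G₂ ≃* Matrix.SpecialLinearGroup (Fin 3) (GaloisField 2 6)) ∧
      (∃ a ∈ G₂, ∃ b ∈ G₂, a * b * a⁻¹ * b⁻¹ ∉ G₁) ∧
      G₂.index = 3 ∧
      (subformations G).Finite := by
  have h64 : Nat.card (GaloisField 2 6) = 64 := by
    rw [GaloisField.card 2 6 (by norm_num)]; norm_num
  have : Finite (GaloisField 2 6) := Nat.finite_of_card_ne_zero (by rw [h64]; norm_num)
  refine ⟨Form3.GG (GaloisField 2 6), inferInstance, inferInstance, Form3.G1 _, Form3.G2 _,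
    series_iff _ h64, Form3.card_G1 _ h64, ?_, ?_, ?_, Form3.card_quot _ h64, ?_⟩
  · apply le_antisymm
    · intro z hz
      rw [Subgroup.mem_center_iff]
      exact Form3.cent _ z hz
    · intro z hz
      apply Form3.cen
      intro x _
      rw [Subgroup.mem_center_iff] at hz
      have : ⁅z, x⁆ = 1 := commutatorElement_eq_one_iff_mul_comm.2 (hz x).symm
      rw [this]
      exact Subgroup.one_mem _
  · exact ⟨(MonoidHom.ofInjective (Form3.inl_inj' (GaloisField 2 6))).symm⟩
  · by_contra hcon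
    push Not at hcon
    apply Form3.nonab (GaloisField 2 6)
    intro a b
    obtain ⟨x, rfl⟩ := QuotientGroup.mk_surjective a
    obtain ⟨y, rfl⟩ := QuotientGroup.mk_surjective b
    rw [← QuotientGroup.mk_mul, ← QuotientGroup.mk_mul, QuotientGroup.eq, Subgroup.mem_subgroupOf]
    have := hcon _ ((Form3.G2 _).inv_mem y.2) _ ((Form3.G2 _).inv_mem x.2)
    simpa [mul_assoc] using this
  · exact (Form3.finite_GG (GaloisField 2 6) h64).subset (fun F hF => isSub hF)

end Pool.Agent.Results.MP_3384ed_al.FiniteForm
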